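import Pool.Agent.H41.Bose6

open Pool.Agent.H41.Bose

theorem Pool.Agent.Results.MP_a755a8_mp.Exact.result (Vext : R3 → ℝ) (hT : Trap Vext) :
    {β : ℝ | 0 < β ∧ β ≤ 1 ∧ ∀ V W, Admissible V W → Stable β Vext V W} = Set.Ioo 0 (1 / 3) := by
  ext β
  simp only [Set.mem_ofPred_eq, main hT β, Set.mem_Ioo]
  exact ⟨fun h => ⟨h.1, h.2.2⟩, fun h => ⟨h.1, by linarith [h.2], h.2⟩⟩
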